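import Pool.Agent.Helper59.TG.Transfer

/-!
# Closed geodesics through every point of a torus

`IsMetric g`: `g` is a `C¹` Riemannian metric on `ℝⁿ / ℤⁿ`, given by its coefficients.
`IsClosedGeodesic g γ v`: `γ` is (the lift to `ℝⁿ` of) a closed geodesic and `v = γ'`.
`IsCompleteIntegral g A S P h`: `S (x, a)`, `a ∈ A`, is a nondegenerate `C²` complete
integral of the Hamilton-Jacobi equation of `g`, i.e. an open part of the phase space is
filled by invariant Lagrangian graphs.

1. If there is such a complete integral, then through every point of the torus, arbitrarily near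
   to every direction of the invariant graphs, there is a closed geodesic.
2. Through every point there is a closed geodesic if `g` is a Staeckel metric, a Liouville metric,
   or depends on one coordinate only (with arbitrary mixed terms).
-/

namespace Pool.Agent.Results.MP_478427_gt.CompleteIntegral

open Helper59.Torus

theorem result {n : ℕ} (hn : 0 < n) (g : Vec n → Fin n → Fin n → ℝ) (hg : IsMetric g) :
    (∀ A S P h, IsOpen A → IsCompleteIntegral g A S P h → ∀ a ∈ A, ∀ x X : Vec n,
      IsGradient g S x a X → ∀ ε > 0, ClosedGeodesicNear g x X ε) ∧
    (IsStackel g ∨ IsLiouville g ∨ IsOneCoordinate g → ∀ x, ClosedGeodesicThrough g x) :=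
  ⟨fun _ _ _ _ hA H _ ha x X hX _ hε => near_of hg hA H ha x X hX hε,
    fun h x => through_of hn hg h x⟩

end Pool.Agent.Results.MP_478427_gt.CompleteIntegral
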