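import Pool.Agent.Helper59.KT.Three

/-!
# Closed geodesics near an invariant torus with linear flow

`IsMetric g`: `g` is a `C¹` Riemannian metric on `ℝⁿ / ℤⁿ`, given by its coefficients.
`IsLinearGraph g ω S P E`: the constant vector field `ω` is the gradient of `S`, where
`S (x + m) = S x + P · m`, and has constant length: `dS` is an invariant Lagrangian graph and the
geodesic flow on it is the linear flow of `ω`. (Example: `∑ j, g_ij ω_j` is constant for all `i`.)

1. For all `T` and all integral `m ≠ 0` there is a closed geodesic `γ` with `γ (t + 1) = γ t + m`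
   and `|γ t - γ s - (t - s) T ω|² ≤ (b / a)² (t - s) |m - T ω|²` for `s ≤ t ≤ s + 1`.
2. If any two integral relations between the coordinates of `ω` are dependent, then for every
   `ε > 0` a single closed geodesic comes `ε`-close to every point.
3. If `n ≤ 3`, the union of the closed geodesics is dense.
-/

namespace Pool.Agent.Results.MP_478427_gt.LinearGraph

open Helper59.Torus

theorem result {n : ℕ} (g : Vec n → Fin n → Fin n → ℝ) (hg : IsMetric g) (ω : Vec n) (hω : ω ≠ 0)
    (S : Vec n → ℝ) (P : Vec n) (E : ℝ) (H : IsLinearGraph g ω S P E) :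
    (∀ a b : ℝ, 0 < a → Bounds g a b → ∀ m : Fin n → ℤ, m ≠ 0 → ∀ T : ℝ,
      ∃ γ v : ℝ → Vec n, IsGeodesic g γ v ∧ v 0 ≠ 0 ∧ (∀ t, γ (t + 1) = γ t + intVec m) ∧
        ∀ s t, s ≤ t → t ≤ s + 1 → ∑ i, (γ t i - γ s i - (t - s) * T * ω i) ^ 2 ≤
          (b / a) ^ 2 * (t - s) * ∑ i, (m i - T * ω i) ^ 2) ∧
    (AtMostOneRelation ω → ∀ ε > 0, ∃ γ v : ℝ → Vec n,
      IsClosedGeodesic g γ v ∧ ∀ x, Approaches γ x ε) ∧
    (n ≤ 3 → ∀ x, ∀ ε > 0, ∃ γ v : ℝ → Vec n, IsClosedGeodesic g γ v ∧ Approaches γ x ε) := by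
  refine ⟨fun a b ha hab m hm T => ?_, fun hrel ε hε => dense_of hg hω H hrel hε,
    fun hn x ε hε => dense_three hg hn hω H x hε⟩
  obtain ⟨γ, v, h1, h2, h3, h4⟩ := estimate hg H ha hab m T
  exact ⟨γ, v, h1, h2 hm, h3, h4⟩

end Pool.Agent.Results.MP_478427_gt.LinearGraph
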